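import Pool.Agent.C42e77.Base

set_option autoImplicit false

namespace Pool.Agent.Results.MP_c42e77_an.Main

/-- The subsum map `f((ε_n)) = ∑ ε_n x_n` of the series `x`. -/
noncomputable def subsum (x : ℕ → ℝ) (e : ℕ → Bool) : ℝ := ∑' n, if e n then x n else 0

/-- The cardinality function `F_x(t) = card (f⁻¹(t))`. -/
noncomputable def cardFun (x : ℕ → ℝ) (t : ℝ) : Cardinal :=
  Cardinal.mk {e : ℕ → Bool // subsum x e = t}

/-- The level set `L_𝔠(x) = {t : F_x(t) = 𝔠}`. -/
def levelC (x : ℕ → ℝ) : Set ℝ := {t | cardFun x t = Cardinal.continuum}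

/-- Q1: for every convergent series with positive terms the level set `L_𝔠(x)` is empty or contains
a Cantor set. -/
theorem result (x : ℕ → ℝ) (hpos : ∀ n, 0 < x n) (hs : Summable x) :
    levelC x = ∅ ∨ ∃ K : Set ℝ, K ⊆ levelC x ∧ Nonempty (K ≃ₜ cantorSet) := by
  rcases Set.eq_empty_or_nonempty (levelC x) with h | ⟨t, ht⟩
  · exact Or.inl h
  · right
    obtain ⟨G, hG, hGi, hGc⟩ := Pool.Agent.C42e77.main_thm x hpos hs t ht
    refine ⟨Set.range G, ?_, ?_⟩
    · rintro _ ⟨h, rfl⟩
      exact hGc h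
    · have e1 : (ℕ → Bool) ≃ₜ Set.range G :=
        (Topology.IsClosedEmbedding.toIsEmbedding
          (Continuous.isClosedEmbedding hG hGi)).toHomeomorph
      exact ⟨e1.symm.trans cantorSetHomeomorphNatToBool.symm⟩

end Pool.Agent.Results.MP_c42e77_an.Main
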